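import Mathlib

/-!
Galois closures and adjunction of `√-3`.
-/

set_option autoImplicit false

open NumberField Module
open scoped IntermediateField

namespace Pool.Agent.Lib.MP_695920_nt.Sx

/-- two embeddings into a normal extension are conjugate -/
lemma exists_conj_hom {F K L : Type*} [Field F] [Field K] [Field L] [Algebra F K] [Algebra F L]
    [Normal F L] [FiniteDimensional F L] (φ ψ : K →ₐ[F] L) :
    ∃ σ : L ≃ₐ[F] L, ∀ x, σ (φ x) = ψ x := by
  let _ : Algebra K L := φ.toRingHom.toAlgebra
  have _ : IsScalarTower F K L := IsScalarTower.of_algebraMap_eq fun x => (φ.commutes x).symm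
  let τ : L →ₐ[F] L := AlgHom.liftNormal ψ L
  have hτ : Function.Bijective τ := by
    have h := LinearMap.injective_iff_surjective (f := (τ : L →ₗ[F] L))
    exact ⟨τ.injective, h.mp τ.injective⟩
  refine ⟨AlgEquiv.ofBijective τ hτ, fun x => ?_⟩
  have h1 := AlgHom.liftNormal_commutes ψ L x
  exact h1

lemma exists_closure_gen (F K : Type) [Field F] [PerfectField F] [Field K] [Algebra F K]
    [FiniteDimensional F K] :
    ∃ (L : Type) (_ : Field L) (_ : Algebra F L) (_ : FiniteDimensional F L) (_ : IsGalois F L)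
      (φ : K →ₐ[F] L), φ.fieldRange.fixingSubgroup.normalCore = ⊥ := by
  let Ω := AlgebraicClosure F
  have hac : IsAlgClosed Ω := IsAlgClosure.isAlgClosed F
  have hno : Normal F Ω := IsAlgClosure.normal F Ω
  let N : IntermediateField F Ω := IntermediateField.normalClosure F K Ω
  have hN : Normal F N := inferInstance
  have hfd : FiniteDimensional F N := inferInstance
  have hgal : IsGalois F N := ⟨⟩
  let f0 : K →ₐ[F] Ω := IsAlgClosed.lift
  let lf : (K →ₐ[F] Ω) → (K →ₐ[F] N) := fun f =>
    (IntermediateField.inclusion (AlgHom.fieldRange_le_normalClosure f)).comp f.rangeRestrict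
  refine ⟨N, inferInstance, inferInstance, hfd, hgal, lf f0, ?_⟩
  rw [Subgroup.eq_bot_iff_forall]
  intro g hg
  have key : ∀ f : K →ₐ[F] Ω, ∀ x : K, g (lf f x) = lf f x := by
    intro f x
    obtain ⟨σ, hσ⟩ := exists_conj_hom (lf f0) (lf f)
    have h1 : σ⁻¹ * g * σ⁻¹⁻¹ ∈ (lf f0).fieldRange.fixingSubgroup := hg σ⁻¹
    rw [IntermediateField.mem_fixingSubgroup_iff] at h1
    have h2 := h1 (lf f0 x) ⟨x, rfl⟩
    rw [inv_inv, AlgEquiv.mul_apply, AlgEquiv.mul_apply] at h2
    have h3 := congrArg σ h2
    rw [← AlgEquiv.mul_apply, mul_inv_cancel, AlgEquiv.one_apply, hσ] at h3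
    exact h3
  have hle : N ≤ IntermediateField.lift (IntermediateField.fixedField (Subgroup.zpowers g)) := by
    apply iSup_le
    rintro f _ ⟨x, rfl⟩
    have h0 : ((lf f x : N) : Ω) = f x := rfl
    change f x ∈ _
    rw [← h0, IntermediateField.mem_lift (lf f x)]
    rintro ⟨g', hg'⟩
    have h2 : g ∈ MulAction.stabilizer (N ≃ₐ[F] N) (lf f x) := key f x
    exact (Subgroup.zpowers_le.mpr h2) hg'
  ext x
  have h4 := hle x.2
  rw [IntermediateField.mem_lift x] at h4
  exact congrArg Subtype.val (h4 ⟨g, Subgroup.mem_zpowers g⟩)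

theorem exists_closure (K : Type) [Field K] [NumberField K] :
    ∃ (L : Type) (_ : Field L) (_ : NumberField L) (_ : IsGalois ℚ L) (φ : K →ₐ[ℚ] L),
      φ.fieldRange.fixingSubgroup.normalCore = ⊥ := by
  obtain ⟨L, _, instA, hfd, hgal, φ, h⟩ := exists_closure_gen ℚ K
  have hcz : CharZero L := charZero_of_injective_algebraMap (algebraMap ℚ L).injective
  obtain rfl : instA = DivisionRing.toRatAlgebra := Subsingleton.elim _ _
  exact ⟨L, inferInstance, ⟨⟩, hgal, φ, h⟩

/-- adjoining `√-3` -/
theorem exists_adjoin (K : Type) [Field K] [NumberField K] (hK : ∀ x : K, x ^ 2 ≠ -3) :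
    ∃ (K' : Type) (_ : Field K') (_ : NumberField K') (_ : Algebra K K') (s : K'),
      finrank K K' = 2 ∧ s ^ 2 = -3 ∧ K⟮s⟯ = ⊤ := by
  let f : Polynomial K := Polynomial.X ^ 2 + Polynomial.C 3
  have hdeg : f.natDegree = 2 := Polynomial.natDegree_X_pow_add_C
  have hf0 : f ≠ 0 := by
    intro h
    rw [h] at hdeg
    simp at hdeg
  have hirr : Irreducible f := by
    rw [Polynomial.irreducible_iff_roots_eq_zero_of_degree_le_three (by omega) (by omega)]
    by_contra h
    obtain ⟨x, hx⟩ := Multiset.exists_mem_of_ne_zero h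
    rw [Polynomial.mem_roots hf0] at hx
    apply hK x
    have h1 : f.eval x = 0 := hx
    simp only [f, Polynomial.eval_add, Polynomial.eval_pow, Polynomial.eval_X,
      Polynomial.eval_C] at h1
    linear_combination h1
  have hfact : Fact (Irreducible f) := ⟨hirr⟩
  have hfin : finrank K (AdjoinRoot f) = 2 := by
    rw [← hdeg]
    exact (AdjoinRoot.powerBasis hf0).finrank
  have hfd : Module.Finite K (AdjoinRoot f) := Module.finite_of_finrank_pos (by omega)
  have hcz : CharZero (AdjoinRoot f) := charZero_of_injective_algebraMap (algebraMap K (AdjoinRoot f)).injective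
  have hfd2 : Module.Finite ℚ (AdjoinRoot f) := Module.Finite.trans K (AdjoinRoot f)
  have hnf : NumberField (AdjoinRoot f) := ⟨⟩
  refine ⟨AdjoinRoot f, inferInstance, hnf, inferInstance, AdjoinRoot.root f, hfin, ?_, ?_⟩
  · have h1 : (AdjoinRoot.root f) ^ 2 + (AdjoinRoot.of f) 3 = 0 := by
      have h2 := AdjoinRoot.eval₂_root f
      have h3 : f.eval₂ (AdjoinRoot.of f) (AdjoinRoot.root f) =
          (AdjoinRoot.root f) ^ 2 + (AdjoinRoot.of f) 3 := by
        change (Polynomial.X ^ 2 + Polynomial.C 3 : Polynomial K).eval₂ _ _ = _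
        rw [Polynomial.eval₂_add, Polynomial.eval₂_pow, Polynomial.eval₂_X, Polynomial.eval₂_C]
      rw [h3] at h2
      exact h2
    have h3 : (AdjoinRoot.of f) 3 = 3 := map_ofNat _ _
    rw [h3] at h1
    linear_combination h1
  · exact IntermediateField.adjoin_root_eq_top f

end Pool.Agent.Lib.MP_695920_nt.Sx
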