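import Mathlib
import Pool.Agent.Lib.MP_695920_nt.SplitMass

/-!
The discriminant of `K(√-3)`.
-/

set_option autoImplicit false

open NumberField Module Polynomial
open scoped IntermediateField

namespace Pool.Agent.Lib.MP_695920_nt.Sx

lemma norm_embedding_sqrt {K : Type*} [Field K] [NumberField K] {s : K} (hs : s ^ 2 = -3)
    (φ : K →ₐ[ℚ] ℂ) : ‖φ (2 * s)‖ = Real.sqrt 12 := by
  have h1 : (φ s) ^ 2 = -3 := by
    rw [← map_pow, hs, map_neg, map_ofNat]
  have h2 : ‖φ s‖ ^ 2 = 3 := by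
    rw [← norm_pow, h1]
    simp
  rw [map_mul, norm_mul]
  have h3 : ‖φ (2 : K)‖ = 2 := by
    rw [map_ofNat]
    simp
  rw [h3]
  symm
  rw [Real.sqrt_eq_iff_mul_self_eq (by norm_num) (by positivity)]
  linear_combination -4 * h2

theorem discr_adjoin_le {K K' : Type*} [Field K] [NumberField K] [Field K'] [NumberField K']
    [Algebra K K'] {s : K'} (hs : s ^ 2 = -3) (h2 : finrank K K' = 2) (htop : K⟮s⟯ = ⊤) :
    |(discr K' : ℝ)| ≤ 12 ^ (finrank ℚ K) * |(discr K : ℝ)| ^ 2 := by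
  have hint : IsIntegral ℤ s := by
    refine ⟨X ^ 2 + C 3, ?_, ?_⟩
    · monicity!
    · simp [hs]
  let θ : 𝓞 K' := ⟨s, hint⟩
  have hθ : algebraMap (𝓞 K') K' θ = s := rfl
  have hθint : IsIntegral (𝓞 K) θ := Algebra.IsIntegral.isIntegral θ
  -- the minimal polynomial
  have hmon : (X ^ 2 + C 3 : K[X]).Monic := by monicity!
  have hdeg : (X ^ 2 + C 3 : K[X]).natDegree = 2 := natDegree_X_pow_add_C
  have hsK : IsIntegral K s := Algebra.IsIntegral.isIntegral s
  have hmin : minpoly K s = X ^ 2 + C 3 := by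
    have h3 : minpoly K s ∣ (X ^ 2 + C 3 : K[X]) := by
      apply minpoly.dvd
      rw [map_add, map_pow, aeval_X, hs, aeval_C, map_ofNat]
      ring
    have h4 : (minpoly K s).natDegree = 2 := by
      rw [← IntermediateField.adjoin.finrank hsK, htop, IntermediateField.finrank_top', h2]
    exact (eq_of_monic_of_dvd_of_natDegree_le (minpoly.monic hsK) hmon h3 (by rw [hdeg, h4])).symm
  have hmap : (minpoly (𝓞 K) θ).map (algebraMap (𝓞 K) K) = X ^ 2 + C 3 := by
    have h3 := minpoly.isIntegrallyClosed_eq_field_fractions K K' hθint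
    rw [hθ, hmin] at h3
    exact h3.symm
  have hmin2 : minpoly (𝓞 K) θ = X ^ 2 + C 3 := by
    apply Polynomial.map_injective (algebraMap (𝓞 K) K) (FaithfulSMul.algebraMap_injective (𝓞 K) K)
    rw [hmap, Polynomial.map_add, Polynomial.map_pow, Polynomial.map_X, Polynomial.map_C]
    congr 2
  have hadj : Algebra.adjoin K {algebraMap (𝓞 K') K' θ} = ⊤ := by
    rw [hθ]
    have h3 := IntermediateField.adjoin_simple_toSubalgebra_of_isAlgebraic (F := K) (α := s)
      hsK.isAlgebraic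
    rw [← h3, htop]
    rfl
  have hmem := aeval_derivative_mem_differentIdeal (𝓞 K) K K' θ hadj
  rw [hmin2] at hmem
  have hder : (aeval θ) (derivative (X ^ 2 + C 3 : (𝓞 K)[X])) = 2 * θ := by
    rw [derivative_add, derivative_X_pow, derivative_C, add_zero, map_mul, aeval_C, map_natCast,
      map_pow, aeval_X]
    norm_num
  rw [hder] at hmem
  have hdvd : differentIdeal (𝓞 K) (𝓞 K') ∣ Ideal.span {2 * θ} := by
    rw [Ideal.dvd_span_singleton]
    exact hmem
  have h5 := Ideal.absNorm_dvd_absNorm_of_le (Ideal.dvd_iff_le.mp hdvd)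
  have hne : Ideal.absNorm (Ideal.span {2 * θ}) ≠ 0 := by
    rw [Ne, Ideal.absNorm_eq_zero_iff, Ideal.span_singleton_eq_bot]
    intro h0
    have h1 : (2 : K') * s = 0 := congrArg (algebraMap (𝓞 K') K') h0
    have h3 : s = 0 := by simpa using h1
    rw [h3] at hs
    norm_num at hs
  have h6 : (Ideal.absNorm (differentIdeal (𝓞 K) (𝓞 K')) : ℝ) ≤
      (Ideal.absNorm (Ideal.span {2 * θ}) : ℝ) := by
    exact_mod_cast Nat.le_of_dvd (Nat.pos_of_ne_zero hne) h5
  have h7 := absNorm_span_le (2 * θ) (Real.sqrt 12) (fun φ => by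
    have h1 : (((2 * θ : 𝓞 K')) : K') = 2 * s := rfl
    rw [h1, norm_embedding_sqrt hs φ])
  have hfin : finrank ℚ K' = 2 * finrank ℚ K := by
    rw [← finrank_mul_finrank ℚ K K', h2, mul_comm]
  rw [hfin, pow_mul, Real.sq_sqrt (by norm_num)] at h7
  have h8 := natAbs_discr_eq_absNorm_differentIdeal_mul_natAbs_discr_pow K (𝓞 K) K' (𝓞 K')
  rw [h2] at h8
  have h9 : |(discr K' : ℝ)| = ((discr K').natAbs : ℝ) := by
    rw [Nat.cast_natAbs]
    push_cast
    rfl
  have h10 : |(discr K : ℝ)| = ((discr K).natAbs : ℝ) := by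
    rw [Nat.cast_natAbs]
    push_cast
    rfl
  rw [h9, h10, h8]
  push_cast
  exact mul_le_mul_of_nonneg_right (h6.trans h7) (by positivity)

lemma not_mem_bot_of_sq {L : Type*} [Field L] [NumberField L] {s : L} (hs : s ^ 2 = -3) :
    s ∉ (⊥ : IntermediateField ℚ L) := by
  intro h
  rw [IntermediateField.mem_bot] at h
  obtain ⟨q, hq⟩ := h
  have h1 : (algebraMap ℚ L) (q ^ 2) = algebraMap ℚ L (-3) := by
    rw [map_pow, hq, hs]
    simp
  have h2 : q ^ 2 = -3 := (algebraMap ℚ L).injective h1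
  nlinarith [sq_nonneg q]

lemma finrank_sqrt {L : Type*} [Field L] [NumberField L] {s : L} (hs : s ^ 2 = -3) :
    finrank ℚ ℚ⟮s⟯ = 2 := by
  have h1 : finrank ℚ ℚ⟮s⟯ = (minpoly ℚ s).natDegree :=
    IntermediateField.adjoin.finrank (Algebra.IsIntegral.isIntegral s)
  have h2 : (minpoly ℚ s).natDegree ≤ 2 := by
    have h3 : minpoly ℚ s ∣ (Polynomial.X ^ 2 + Polynomial.C 3 : Polynomial ℚ) := by
      apply minpoly.dvd
      simp [hs]
    have h4 : (Polynomial.X ^ 2 + Polynomial.C 3 : Polynomial ℚ).natDegree = 2 :=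
      Polynomial.natDegree_X_pow_add_C
    rw [← h4]
    apply Polynomial.natDegree_le_of_dvd h3
    intro h0
    rw [h0] at h4
    simp at h4
  have h3 : finrank ℚ ℚ⟮s⟯ ≠ 1 := by
    intro h
    rw [IntermediateField.finrank_eq_one_iff] at h
    exact not_mem_bot_of_sq hs (h ▸ IntermediateField.mem_adjoin_simple_self ℚ s)
  have h4 : 0 < finrank ℚ ℚ⟮s⟯ := finrank_pos
  omega

lemma adjoin_sqrt_eq_top {E : Type*} [Field E] [NumberField E] {s : E} (hs : s ^ 2 = -3)
    (h2 : finrank ℚ E = 2) : ℚ⟮s⟯ = ⊤ := by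
  apply IntermediateField.eq_of_le_of_finrank_eq le_top
  rw [finrank_sqrt hs, IntermediateField.finrank_top', h2]

/-- the discriminant of `ℚ(√-3)` -/
theorem discr_sqrt_le {L : Type*} [Field L] [NumberField L] {s : L} (hs : s ^ 2 = -3) :
    |(discr ℚ⟮s⟯ : ℝ)| ≤ 12 := by
  have hs' : (IntermediateField.AdjoinSimple.gen ℚ s) ^ 2 = -3 := by
    apply Subtype.ext
    exact hs
  have h2 := finrank_sqrt hs
  have h1 := discr_adjoin_le (K := ℚ) (K' := ℚ⟮s⟯) hs' h2 (adjoin_sqrt_eq_top hs' h2)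
  have h3 : (discr ℚ : ℝ) = 1 := by
    rw [Rat.numberField_discr]
    norm_num
  rw [h3, Module.finrank_self] at h1
  simpa using h1

end Pool.Agent.Lib.MP_695920_nt.Sx
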