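import Mathlib
import Pool.Agent.Lib.MP_695920_nt.Tow.Crit

/-!
Group theory for the reflection theorem: the sweeping elements are even.
-/

set_option autoImplicit false

open Pool.Agent.Lib.MP_695920_nt.Tow

namespace Pool.Agent.Lib.MP_695920_nt.Sx

lemma odd_of_zpow {A : Type*} [Group A] [Finite A] (j : ℤ) (hj : Odd j)
    (h : ∀ x : A, x ^ j = 1) : Odd (Nat.card A) := by
  rw [← Nat.not_even_iff_odd]
  intro he
  obtain ⟨x, hx⟩ := exists_prime_orderOf_dvd_card' 2 he.two_dvd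
  have h1 := orderOf_dvd_iff_zpow_eq_one.mpr (h x)
  rw [hx] at h1
  rw [← Int.not_even_iff_odd] at hj
  exact hj (even_iff_two_dvd.mpr (by exact_mod_cast h1))

variable {G : Type*} [Group G] [Finite G]

lemma odd_relIndex (H Q : Subgroup G) (hHQ : H ≤ Q) (g : G) (j : ℤ) (hj : Odd j)
    (hgj : g ^ j ∈ H) (hcov : ∀ q ∈ Q, ∃ i : ℤ, ∃ h ∈ H, q = g ^ i * h) :
    Odd (H.relIndex Q) := by
  classical
  set C : Subgroup G := Subgroup.zpowers g ⊓ Q with hC
  have hCQ : C ≤ Q := inf_le_right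
  have hcomm : ∀ a b : C, a * b = b * a := by
    rintro ⟨a, ha, ha'⟩ ⟨b, hb, hb'⟩
    obtain ⟨i, rfl⟩ := ha
    obtain ⟨k, rfl⟩ := hb
    apply Subtype.ext
    change g ^ i * g ^ k = g ^ k * g ^ i
    rw [← zpow_add, ← zpow_add, add_comm]
  have hnorm : (H.subgroupOf C).Normal := by
    constructor
    intro n hn x
    have : x * n * x⁻¹ = n := by rw [hcomm x n]; group
    rwa [this]
  have h1 : Odd (Nat.card (C ⧸ H.subgroupOf C)) := by
    apply odd_of_zpow j hj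
    intro x
    obtain ⟨c, rfl⟩ := QuotientGroup.mk_surjective x
    rw [← QuotientGroup.mk_zpow, QuotientGroup.eq_one_iff]
    obtain ⟨c, hc, hc'⟩ := c
    obtain ⟨i, rfl⟩ := hc
    rw [Subgroup.mem_subgroupOf]
    change (g ^ i) ^ j ∈ H
    rw [← zpow_mul, mul_comm, zpow_mul]
    exact H.zpow_mem hgj i
  have h2 : Nat.card (C ⧸ H.subgroupOf C) = Nat.card (Q ⧸ H.subgroupOf Q) := by
    apply Nat.card_eq_of_bijective (Subgroup.quotientSubgroupOfEmbeddingOfLE H hCQ)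
    refine ⟨(Subgroup.quotientSubgroupOfEmbeddingOfLE H hCQ).injective, ?_⟩
    intro y
    obtain ⟨q, rfl⟩ := QuotientGroup.mk_surjective y
    obtain ⟨i, h, hh, e⟩ := hcov q q.2
    have hgi : g ^ i ∈ C := by
      refine ⟨⟨i, rfl⟩, ?_⟩
      have : g ^ i = q * h⁻¹ := by rw [e]; group
      rw [this]
      exact Q.mul_mem q.2 (Q.inv_mem (hHQ hh))
    refine ⟨((⟨g ^ i, hgi⟩ : C) : C ⧸ H.subgroupOf C), ?_⟩
    rw [Subgroup.quotientSubgroupOfEmbeddingOfLE_apply_mk]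
    rw [QuotientGroup.eq, Subgroup.mem_subgroupOf]
    change (g ^ i)⁻¹ * (q : G) ∈ H
    rw [e]
    simpa using hh
  have h3 : H.relIndex Q = Nat.card (Q ⧸ H.subgroupOf Q) := rfl
  rw [h3, ← h2]
  exact h1

/-- the sweeping elements lie in `R` -/
theorem cset_subset_of_even (H R N : Subgroup G) [hN : N.Normal] (hR : R.index = 2) (hNR : N ≤ R)
    (hodd : Odd (H ⊔ N).index) (heven : Even (H.relIndex (H ⊔ N))) :
    cset (H ⊓ R) N ⊆ (R : Set G) := by
  classical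
  intro g hg
  by_contra hgR
  have hgR' : g ∉ R := hgR
  have hRn : R.Normal := Subgroup.normal_of_index_eq_two hR
  -- powers outside `R`
  have hpow : ∀ x : G, x ∉ R → ∀ i : ℤ, x ^ i ∈ R → Even i := by
    intro x hx i hi
    by_contra hne
    rw [Int.not_even_iff_odd] at hne
    obtain ⟨k, rfl⟩ := hne
    have h2 : x ^ (2 : ℤ) ∈ R := by
      have := Subgroup.mul_self_mem_of_index_two hR x
      rwa [zpow_two]
    have h3 : (x ^ (2 : ℤ)) ^ k ∈ R := R.zpow_mem h2 k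
    rw [zpow_add, zpow_one, zpow_mul] at hi
    exact hx ((R.mul_mem_cancel_left h3).mp hi)
  -- an odd power of `g` fixes a block
  obtain ⟨a, o, ho, hao⟩ := Nat.exists_eq_two_pow_mul_odd (orderOf_pos g).ne'
  have hX : ∃ y : G, y⁻¹ * g ^ o * y ∈ H ⊔ N := by
    have hP : IsPGroup 2 (Subgroup.zpowers (g ^ o)) := by
      apply IsPGroup.of_card (n := a)
      rw [Nat.card_zpowers, orderOf_pow, hao]
      have : Nat.gcd (2 ^ a * o) o = o := Nat.gcd_eq_right (Dvd.intro_left _ rfl)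
      rw [this, Nat.mul_div_cancel _ ho.pos]
    have hfix := hP.nonempty_fixed_point_of_prime_not_dvd_card (G ⧸ (H ⊔ N)) (by
      intro h2
      change 2 ∣ (H ⊔ N).index at h2
      rw [← Nat.not_even_iff_odd] at hodd
      exact hodd (even_iff_two_dvd.mpr h2))
    obtain ⟨x, hx⟩ := hfix
    obtain ⟨y, rfl⟩ := QuotientGroup.mk_surjective x
    have h1 := hx ⟨g ^ o, Subgroup.mem_zpowers _⟩
    refine ⟨y, ?_⟩
    have h2 : ((g ^ o * y : G) : G ⧸ (H ⊔ N)) = ((y : G) : G ⧸ (H ⊔ N)) := h1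
    rw [eq_comm, QuotientGroup.eq] at h2
    rwa [← mul_assoc] at h2
  obtain ⟨y, hy⟩ := hX
  set g1 := y⁻¹ * g * y with hg1
  have hg1c : g1 ∈ cset (H ⊓ R) N := by
    have := cset_conj hN hg y⁻¹
    rwa [inv_inv] at this
  have hg1R : g1 ∉ R := by
    intro h
    apply hgR'
    have := hRn.conj_mem g1 h y
    have e : y * g1 * y⁻¹ = g := by rw [hg1]; group
    rwa [e] at this
  have hg1o : g1 ^ (o : ℤ) ∈ H ⊔ N := by
    have e : g1 ^ (o : ℤ) = y⁻¹ * g ^ o * y := by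
      rw [hg1]
      have := conj_zpow (i := (o : ℤ)) (a := y⁻¹) (b := g)
      rw [inv_inv] at this
      rw [this, zpow_natCast]
    rw [e]
    exact hy
  -- covering
  have hcov : ∀ q ∈ H ⊔ N, ∃ i : ℤ, Even i ∧ ∃ h ∈ H, q = g1 ^ i * h := by
    intro q hq
    rw [sup_comm, Subgroup.mem_sup_of_normal_left] at hq
    obtain ⟨n, hn, h0, hh0, rfl⟩ := hq
    obtain ⟨i, h, ⟨hhH, hhR⟩, e⟩ := hg1c n hn 1
    rw [mul_one, mul_one] at e
    refine ⟨i, ?_, h * h0, H.mul_mem hhH hh0, ?_⟩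
    · apply hpow g1 hg1R
      have : g1 ^ i = n * h⁻¹ := by rw [e]; group
      rw [this]
      exact R.mul_mem (hNR hn) (R.inv_mem hhR)
    · rw [e, mul_assoc]
  obtain ⟨i, hi, h, hh, e⟩ := hcov _ hg1o
  have hj : g1 ^ ((o : ℤ) - i) ∈ H := by
    have e2 : g1 ^ ((o : ℤ) - i) = g1 ^ (-i) * g1 ^ (o : ℤ) := by
      rw [← zpow_add]
      congr 1
      ring
    rw [e2, e, ← mul_assoc, ← zpow_add]
    simpa using hh
  have hodd2 := odd_relIndex H (H ⊔ N) le_sup_left g1 ((o : ℤ) - i) (by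
    have : Odd (o : ℤ) := by exact_mod_cast ho
    exact this.sub_even hi) hj (fun q hq => by
      obtain ⟨i, _, h, hh, e⟩ := hcov q hq
      exact ⟨i, h, hh, e⟩)
  rw [← Nat.not_even_iff_odd] at hodd2
  exact hodd2 heven

end Pool.Agent.Lib.MP_695920_nt.Sx
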