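import Mathlib

/-!
A subgroup of index three contains a term of the derived series.
-/

set_option autoImplicit false

namespace Pool.Agent.Lib.MP_695920_nt.Sx

lemma solvable_perm_three : Group.IsSolvable (Equiv.Perm (Fin 3)) := by
  have hc : Nat.card (alternatingGroup (Fin 3)) = 3 := by
    rw [Nat.card_eq_fintype_card]
    decide
  have : Fact (Nat.Prime 3) := ⟨Nat.prime_three⟩
  have hcyc : IsCyclic (alternatingGroup (Fin 3)) := isCyclic_of_prime_card hc
  have h1 : Group.IsSolvable (alternatingGroup (Fin 3)) :=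
    Group.isSolvable_of_comm fun a b => by
      have h := IsCyclic.isMulCommutative (α := alternatingGroup (Fin 3))
      exact h.is_comm.comm a b
  have h2 : Group.IsSolvable ℤˣ := inferInstance
  apply Group.isSolvable_of_ker_le_range (alternatingGroup (Fin 3)).subtype
    (Equiv.Perm.sign : Equiv.Perm (Fin 3) →* ℤˣ)
  rw [Subgroup.range_subtype]
  exact le_of_eq rfl

lemma solvable_perm_of_card {X : Type*} [Finite X] (h : Nat.card X = 3) :
    Group.IsSolvable (Equiv.Perm X) := by
  have e : X ≃ Fin 3 := by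
    rw [← h]
    exact Finite.equivFin X
  have := solvable_perm_three
  exact Group.isSolvable_of_isSolvable_injective
    (f := (e.permCongrHom : Equiv.Perm X →* Equiv.Perm (Fin 3))) (MulEquiv.injective _)

theorem derived_of_relIndex_three {G : Type*} [Group G] [Finite G] (H Q : Subgroup G)
    (h3 : H.relIndex Q = 3) : ∃ k : ℕ, ∀ x ∈ derivedSeries Q k, (x : G) ∈ H := by
  classical
  set φ : Q →* Equiv.Perm (Q ⧸ H.subgroupOf Q) := MulAction.toPermHom Q (Q ⧸ H.subgroupOf Q)
    with hφ
  have hcard : Nat.card (Q ⧸ H.subgroupOf Q) = 3 := h3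
  have hs := solvable_perm_of_card hcard
  obtain ⟨k, hk⟩ := hs.solvable
  refine ⟨k, fun x hx => ?_⟩
  have h1 := map_derivedSeries_le_derivedSeries φ k (Subgroup.mem_map_of_mem φ hx)
  rw [hk, Subgroup.mem_bot] at h1
  have h2 : φ x ((1 : Q) : Q ⧸ H.subgroupOf Q) = ((1 : Q) : Q ⧸ H.subgroupOf Q) := by
    rw [h1]
    rfl
  have h4 : ((x * 1 : Q) : Q ⧸ H.subgroupOf Q) = ((1 : Q) : Q ⧸ H.subgroupOf Q) := h2
  rw [eq_comm, QuotientGroup.eq, Subgroup.mem_subgroupOf] at h4
  simpa using h4

end Pool.Agent.Lib.MP_695920_nt.Sx
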