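import Mathlib
import Pool.Agent.Lib.MP_695920_nt.Tow.CritMain
import Pool.Agent.Lib.MP_695920_nt.Sx.Grp
import Pool.Agent.Lib.MP_695920_nt.Sx.Grp3
import Pool.Agent.Lib.MP_695920_nt.Sx.Disc

/-!
The criterion applied to `M(√-3)`.
-/

set_option autoImplicit false

open NumberField Module
open scoped IntermediateField

namespace Pool.Agent.Lib.MP_695920_nt.Sx

open Pool.Agent.Lib.MP_695920_nt.Tow Pool.Agent.Lib.MP_695920_nt.Tow.V2

lemma relIndex_of_index_two {G : Type*} [Group G] (Q R : Subgroup G) (hR : R.index = 2)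
    (h : ¬ Q ≤ R) : R.relIndex Q = 2 := by
  have hn := Subgroup.normal_of_index_eq_two hR
  have h1 : R.relIndex Q ∣ 2 := hR ▸ Subgroup.relIndex_dvd_index_of_normal R Q
  rcases (Nat.dvd_prime Nat.prime_two).mp h1 with h2 | h2
  · exact absurd (Subgroup.relIndex_eq_one.mp h2) h
  · exact h2

lemma relIndex_inf_two {G : Type*} [Group G] (H Q R : Subgroup G) (hHQ : H ≤ Q)
    (hR : R.index = 2) (hH : ¬ H ≤ R) : (H ⊓ R).relIndex (Q ⊓ R) = H.relIndex Q := by
  have hQ : ¬ Q ≤ R := fun h => hH (hHQ.trans h)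
  have h1 : (H ⊓ R).relIndex H * H.relIndex Q = (H ⊓ R).relIndex Q :=
    Subgroup.relIndex_mul_relIndex _ _ _ inf_le_left hHQ
  have h2 : (H ⊓ R).relIndex (Q ⊓ R) * (Q ⊓ R).relIndex Q = (H ⊓ R).relIndex Q :=
    Subgroup.relIndex_mul_relIndex _ _ _ (inf_le_inf_right R hHQ) inf_le_left
  have h3 : (H ⊓ R).relIndex H = 2 := by
    rw [inf_comm, Subgroup.inf_relIndex_right]
    exact relIndex_of_index_two H R hR hH
  have h4 : (Q ⊓ R).relIndex Q = 2 := by
    rw [inf_comm, Subgroup.inf_relIndex_right]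
    exact relIndex_of_index_two Q R hR hQ
  rw [h3] at h1
  rw [h4] at h2
  omega

section lat

variable {L : Type} [Field L] [NumberField L] [IsGalois ℚ L]

/-- the exceptional subfields `E` of `M`: they may have small discriminant -/
def Fine (M E : IntermediateField ℚ L) : Prop :=
  finrank ℚ M = 3 * finrank ℚ E ∨
    ∃ X : IntermediateField ℚ L, X ≤ M ∧ Even (finrank ℚ X) ∧
      Odd (finrank ℚ (X ⊓ E : IntermediateField ℚ L))

lemma crit_of_fine (M : IntermediateField ℚ L) {s : L} (hs : s ^ 2 = -3) (hsM : s ∉ M)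
    (N : Subgroup Gal(L/ℚ)) (hN : N.Normal) (hNS : N ≤ (ℚ⟮s⟯).fixingSubgroup)
    (hf : Fine M (M ⊓ IntermediateField.fixedField N)) :
    Crit2 3 (M ⊔ ℚ⟮s⟯ : IntermediateField ℚ L).fixingSubgroup N := by
  set R := (ℚ⟮s⟯).fixingSubgroup with hR
  set H := M.fixingSubgroup with hH
  set E0 : IntermediateField ℚ L := M ⊓ IntermediateField.fixedField N with hE0
  have hsup : (M ⊔ ℚ⟮s⟯ : IntermediateField ℚ L).fixingSubgroup = H ⊓ R :=
    IntermediateField.fixingSubgroup_sup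
  have hE0f : E0.fixingSubgroup = H ⊔ N := by
    rw [hE0, fixing_inf, IntermediateField.fixingSubgroup_fixedField]
  have hRi : R.index = 2 := by
    rw [hR, ← finrank_index (F := ℚ) ℚ⟮s⟯, finrank_sqrt hs]
  have hHR : ¬ H ≤ R := by
    intro h
    exact hsM (le_of_fixing h (IntermediateField.mem_adjoin_simple_self ℚ s))
  have hidx : (H ⊔ N).index = finrank ℚ E0 := by
    rw [← hE0f, ← finrank_index (F := ℚ) E0]
  have hidx2 : H.index = finrank ℚ M := by
    rw [hH, ← finrank_index (F := ℚ) M]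
  have hrel : H.relIndex (H ⊔ N) * finrank ℚ E0 = finrank ℚ M := by
    rw [← hidx, ← hidx2]
    exact Subgroup.relIndex_mul_index le_sup_left
  have hE0pos : 0 < finrank ℚ E0 := finrank_pos
  have hrel2 : H.relIndex (H ⊔ N) = finrank ℚ M / finrank ℚ E0 := by
    rw [← hrel, Nat.mul_div_cancel _ hE0pos]
  rw [hsup]
  rcases hf with h3 | ⟨X, hXM, h1, h2⟩
  · refine Or.inr (Or.inr ⟨Nat.prime_three, by norm_num, ?_⟩)
    have h4 : H ⊓ R ⊔ N = (H ⊔ N) ⊓ R := by
      apply le_antisymm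
      · apply sup_le
        · exact inf_le_inf_right R le_sup_left
        · exact le_inf le_sup_right hNS
      · intro x hx
        obtain ⟨hx1, hx2⟩ := hx
        have hx3 : x ∈ H ⊔ N := hx1
        rw [Subgroup.mem_sup_of_normal_right] at hx3
        obtain ⟨y, hy, z, hz, rfl⟩ := hx3
        have hyR : y ∈ R := by
          have h5 : z ∈ R := hNS hz
          exact (R.mul_mem_cancel_right h5).mp hx2
        exact Subgroup.mul_mem_sup ⟨hy, hyR⟩ hz
    have h5 : (H ⊓ R).relIndex (H ⊓ R ⊔ N) = 3 := by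
      rw [h4, relIndex_inf_two H (H ⊔ N) R le_sup_left hRi hHR, hrel2, h3,
        Nat.mul_div_cancel _ hE0pos]
    exact ⟨⟨1, by rw [h5]; norm_num⟩, derived_of_relIndex_three _ _ h5⟩
  · refine Or.inr (Or.inl ?_)
    set HX := X.fixingSubgroup with hHX
    have hHHX : H ≤ HX := IntermediateField.fixingSubgroup_le hXM
    have hXE : X ⊓ E0 = X ⊓ IntermediateField.fixedField N := by
      rw [hE0, ← inf_assoc, inf_eq_left.mpr hXM]
    have hXf : (X ⊓ E0 : IntermediateField ℚ L).fixingSubgroup = HX ⊔ N := by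
      rw [hXE, fixing_inf, IntermediateField.fixingSubgroup_fixedField]
    have hXi : (HX ⊔ N).index = finrank ℚ (X ⊓ E0 : IntermediateField ℚ L) := by
      rw [← hXf, ← finrank_index (F := ℚ) (X ⊓ E0)]
    have hXi2 : HX.index = finrank ℚ X := by
      rw [hHX, ← finrank_index (F := ℚ) X]
    have hXrel : HX.relIndex (HX ⊔ N) * finrank ℚ (X ⊓ E0 : IntermediateField ℚ L) =
        finrank ℚ X := by
      rw [← hXi, ← hXi2]
      exact Subgroup.relIndex_mul_index le_sup_left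
    have hXeven : Even (HX.relIndex (HX ⊔ N)) := by
      rw [← hXrel, Nat.even_mul] at h1
      rcases h1 with h | h
      · exact h
      · exact absurd h (Nat.not_even_iff_odd.mpr h2)
    have h4 : cset (HX ⊓ R) N ⊆ (R : Set Gal(L/ℚ)) :=
      cset_subset_of_even HX R N hRi hNS (by rw [hXi]; exact h2) hXeven
    have h6 : cset (H ⊓ R) N ⊆ cset (HX ⊓ R) N := by
      intro g hg n hn y
      obtain ⟨i, h, hh, e⟩ := hg n hn y
      exact ⟨i, h, ⟨hHHX hh.1, hh.2⟩, e⟩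
    intro htop
    have h5 : cgrp (H ⊓ R) N ≤ R := by
      unfold cgrp
      rw [Subgroup.closure_le]
      rintro g (hg | hg)
      · exact h4 (h6 hg)
      · exact hNS hg
    rw [htop, top_le_iff] at h5
    rw [h5, Subgroup.index_top] at hRi
    omega

end lat

/-- the bound for `M(√-3)` -/
theorem main_lat (n : ℕ) : ∃ δ : ℝ, 0 < δ ∧ ∀ ε : ℝ, 0 < ε → ∃ C : ℝ,
    ∀ (L : Type) [Field L] [NumberField L] [IsGalois ℚ L] (M : IntermediateField ℚ L) (s : L)
      (T : ℝ), s ^ 2 = -3 → s ∉ M → (M ⊔ ℚ⟮s⟯ : IntermediateField ℚ L).fixingSubgroup.normalCore = ⊥ →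
      finrank ℚ (M ⊔ ℚ⟮s⟯ : IntermediateField ℚ L) = 2 * n → finrank ℚ M = n → 0 < T →
      (∀ E : IntermediateField ℚ L, E ≤ M → ¬ Fine M E → T ≤ |(discr E : ℝ)|) →
      (Nat.card {x : ClassGroup (𝓞 (M ⊔ ℚ⟮s⟯ : IntermediateField ℚ L)) // x ^ 3 = 1} : ℝ) ≤
        C * |(discr (M ⊔ ℚ⟮s⟯ : IntermediateField ℚ L) : ℝ)| ^ (1 / 2 + ε) *
          |(discr ℚ⟮s⟯ : ℝ)| * T ^ (-δ) := by
  obtain ⟨δ, hδ, hmain⟩ := crit_main (2 * n) 3 (by norm_num)
  refine ⟨δ, hδ, fun ε hε => ?_⟩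
  obtain ⟨C, hC⟩ := hmain ε hε
  refine ⟨C, ?_⟩
  intro L _ _ _ M s T hs hsM hcore h2n hn hT hbad
  have hn0 : 0 < n := by
    rw [← hn]
    exact finrank_pos
  apply hC L (M ⊔ ℚ⟮s⟯) ℚ⟮s⟯ {E | E ≤ M ∧ ¬ Fine M E} T h2n hcore hT
  · refine ⟨M, ⟨le_rfl, ?_⟩, le_sup_left⟩
    rintro (h | ⟨X, hXM, h1, h2⟩)
    · omega
    · rw [inf_eq_left.mpr hXM] at h2
      exact absurd h1 (Nat.not_even_iff_odd.mpr h2)
  · rintro E ⟨h1, h2⟩
    exact hbad E h1 h2
  · intro N hN hNS hNK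
    apply crit_of_fine M hs hsM N hN hNS
    by_contra hf
    apply hNK (M ⊓ IntermediateField.fixedField N) ⟨inf_le_left, hf⟩
    rw [fixing_inf, IntermediateField.fixingSubgroup_fixedField]
    exact le_sup_right

/-- the bound for `M` containing `√-3` -/
theorem main_lat_mem (n : ℕ) : ∃ δ : ℝ, 0 < δ ∧ ∀ ε : ℝ, 0 < ε → ∃ C : ℝ,
    ∀ (L : Type) [Field L] [NumberField L] [IsGalois ℚ L] (M : IntermediateField ℚ L) (s : L)
      (T : ℝ), s ^ 2 = -3 → s ∈ M → M.fixingSubgroup.normalCore = ⊥ →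
      finrank ℚ M = n → 0 < T →
      (∀ E : IntermediateField ℚ L, E ≤ M → s ∈ E → n ≠ 3 * finrank ℚ E → T ≤ |(discr E : ℝ)|) →
      (Nat.card {x : ClassGroup (𝓞 M) // x ^ 3 = 1} : ℝ) ≤
        C * |(discr M : ℝ)| ^ (1 / 2 + ε) * |(discr ℚ⟮s⟯ : ℝ)| * T ^ (-δ) := by
  obtain ⟨δ, hδ, hmain⟩ := crit_main n 3 (by norm_num)
  refine ⟨δ, hδ, fun ε hε => ?_⟩
  obtain ⟨C, hC⟩ := hmain ε hε
  refine ⟨C, ?_⟩
  intro L _ _ _ M s T hs hsM hcore hn hT hbad
  have hn0 : 0 < n := by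
    rw [← hn]
    exact finrank_pos
  apply hC L M ℚ⟮s⟯ {E | E ≤ M ∧ s ∈ E ∧ n ≠ 3 * finrank ℚ E} T hn hcore hT
  · exact ⟨M, ⟨le_rfl, hsM, by omega⟩, le_rfl⟩
  · rintro E ⟨h1, h2, h3⟩
    exact hbad E h1 h2 h3
  · intro N hN hNS hNK
    refine Or.inr (Or.inr ⟨Nat.prime_three, by norm_num, ?_⟩)
    set E0 : IntermediateField ℚ L := M ⊓ IntermediateField.fixedField N with hE0
    have hE0f : E0.fixingSubgroup = M.fixingSubgroup ⊔ N := by
      rw [hE0, fixing_inf, IntermediateField.fixingSubgroup_fixedField]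
    have hE0s : s ∈ E0 := by
      refine ⟨hsM, ?_⟩
      have h1 : ℚ⟮s⟯ ≤ IntermediateField.fixedField N := by
        rw [IntermediateField.le_iff_le]
        exact hNS
      exact h1 (IntermediateField.mem_adjoin_simple_self ℚ s)
    have h3 : n = 3 * finrank ℚ E0 := by
      by_contra h
      apply hNK E0 ⟨inf_le_left, hE0s, h⟩
      rw [hE0f]
      exact le_sup_right
    have hidx : (M.fixingSubgroup ⊔ N).index = finrank ℚ E0 := by
      rw [← hE0f, ← finrank_index (F := ℚ) E0]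
    have hidx2 : M.fixingSubgroup.index = finrank ℚ M := by
      rw [← finrank_index (F := ℚ) M]
    have hrel : M.fixingSubgroup.relIndex (M.fixingSubgroup ⊔ N) * finrank ℚ E0 = finrank ℚ M := by
      rw [← hidx, ← hidx2]
      exact Subgroup.relIndex_mul_index le_sup_left
    have hE0pos : 0 < finrank ℚ E0 := finrank_pos
    have h5 : M.fixingSubgroup.relIndex (M.fixingSubgroup ⊔ N) = 3 := by
      have h6 : M.fixingSubgroup.relIndex (M.fixingSubgroup ⊔ N) * finrank ℚ E0 =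
          3 * finrank ℚ E0 := by
        rw [hrel, hn, ← h3]
      exact Nat.eq_of_mul_eq_mul_right hE0pos h6
    exact ⟨⟨1, by rw [h5]; norm_num⟩, derived_of_relIndex_three _ _ h5⟩

end Pool.Agent.Lib.MP_695920_nt.Sx
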