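import Mathlib
import Pool.Agent.Lib.MP_695920_nt.Solv.Red
import Pool.Agent.Lib.MP_695920_nt.Sx.Close
import Pool.Agent.Lib.MP_695920_nt.Sx.MainLat

/-!
3-torsion of the class groups of sextic fields and of fields of even degree, modulo the reflection
inequality.
-/

set_option autoImplicit false

open NumberField Module
open scoped IntermediateField

namespace Pool.Agent.Lib.MP_695920_nt.Sx

open Pool.Agent.Lib.MP_695920_nt.Tow

/-- the number of classes killed by three -/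
noncomputable def t3 (K : Type) [Field K] : ℕ := Nat.card {x : ClassGroup (𝓞 K) // x ^ 3 = 1}

/-- the reflection inequality -/
def Reflection : Prop := ∀ n : ℕ, ∃ C : ℝ, ∀ (K K' : Type) [Field K] [NumberField K] [Field K']
  [NumberField K'] [Algebra K K'] (s : K'), finrank ℚ K = n → finrank K K' = 2 → s ^ 2 = -3 →
  K⟮s⟯ = ⊤ → (t3 K : ℝ) ^ 2 ≤ C * t3 K'

lemma t3_le_of_equiv {A B : Type} [Field A] [NumberField A] [Field B] [NumberField B]
    (e : A ≃ₐ[ℚ] B) : t3 A ≤ t3 B :=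
  Pool.Agent.Lib.MP_695920_nt.Solv.card_tors_le_of_equiv (RingOfIntegers.mapRingEquiv e.toRingEquiv) 3

lemma t3_eq_of_equiv {A B : Type} [Field A] [NumberField A] [Field B] [NumberField B]
    (e : A ≃ₐ[ℚ] B) : t3 A = t3 B := le_antisymm (t3_le_of_equiv e) (t3_le_of_equiv e.symm)

lemma absDiscr_eq_of_equiv {A B : Type} [Field A] [NumberField A] [Field B] [NumberField B]
    (e : A ≃ₐ[ℚ] B) : |(discr A : ℝ)| = |(discr B : ℝ)| := by
  rw [discr_eq_discr_of_algEquiv A e]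

/-- the image of `K(s) = K'` in `L` -/
lemma fieldRange_eq_sup {K K' L : Type} [Field K] [NumberField K] [Field K'] [NumberField K']
    [Algebra K K'] [Field L] [NumberField L] (s : K') (htop : K⟮s⟯ = ⊤) (φ : K' →ₐ[ℚ] L)
    (ι : K →ₐ[ℚ] K') (hι : ∀ x, ι x = algebraMap K K' x) :
    (φ.comp ι).fieldRange ⊔ ℚ⟮φ s⟯ = φ.fieldRange := by
  apply le_antisymm
  · apply sup_le
    · rintro _ ⟨x, rfl⟩
      exact ⟨ι x, rfl⟩
    · rw [IntermediateField.adjoin_simple_le_iff]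
      exact ⟨s, rfl⟩
  · set Y : IntermediateField ℚ L := (φ.comp ι).fieldRange ⊔ ℚ⟮φ s⟯ with hY
    let T : IntermediateField K K' := (Y.comap φ).toSubfield.toIntermediateField (by
      intro x
      change φ (algebraMap K K' x) ∈ Y
      rw [← hι]
      exact (le_sup_left : (φ.comp ι).fieldRange ≤ Y) ⟨x, rfl⟩)
    have h1 : K⟮s⟯ ≤ T := by
      rw [IntermediateField.adjoin_simple_le_iff]
      exact (le_sup_right : ℚ⟮φ s⟯ ≤ Y) (IntermediateField.mem_adjoin_simple_self ℚ (φ s))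
    rw [htop, top_le_iff] at h1
    rintro _ ⟨x, rfl⟩
    have h2 : x ∈ T := by rw [h1]; exact IntermediateField.mem_top
    exact h2

/-- the exceptional subfields: they may have small discriminant -/
def FineK {K : Type} [Field K] [NumberField K] (E : IntermediateField ℚ K) : Prop :=
  finrank E K = 3 ∨
    ∃ X : IntermediateField ℚ K, Even (finrank ℚ X) ∧ Odd (finrank ℚ (X ⊓ E : IntermediateField ℚ K))

lemma fine_of_fineK {K L : Type} [Field K] [NumberField K] [Field L] [NumberField L]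
    (ψ : K →ₐ[ℚ] L) (E' : IntermediateField ℚ K) (h : FineK E') : Fine ψ.fieldRange (E'.map ψ) := by
  have hmapfin : ∀ X : IntermediateField ℚ K, finrank ℚ (X.map ψ) = finrank ℚ X := fun X =>
    ((IntermediateField.equivMap X ψ).toLinearEquiv.finrank_eq).symm
  rcases h with h | ⟨X, h1, h2⟩
  · left
    have h1 : finrank ℚ ψ.fieldRange = finrank ℚ K :=
      ((AlgEquiv.ofInjectiveField ψ).toLinearEquiv.finrank_eq).symm
    rw [h1, hmapfin, ← finrank_mul_finrank ℚ E' K, h, mul_comm]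
  · right
    refine ⟨X.map ψ, ?_, ?_, ?_⟩
    · rintro _ ⟨x, _, rfl⟩
      exact ⟨x, rfl⟩
    · rw [hmapfin]
      exact h1
    · have h3 : (X.map ψ ⊓ E'.map ψ : IntermediateField ℚ L) = (X ⊓ E').map ψ := by
        apply le_antisymm
        · rintro _ ⟨⟨x, hx, rfl⟩, ⟨y, hy, hxy⟩⟩
          have h4 : y = x := ψ.injective hxy
          rw [h4] at hy
          exact ⟨x, ⟨hx, hy⟩, rfl⟩
        · rintro _ ⟨x, ⟨hx, hy⟩, rfl⟩
          exact ⟨⟨x, hx, rfl⟩, ⟨x, hy, rfl⟩⟩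
      rw [h3, hmapfin]
      exact h2

theorem three_even (hR : Reflection) (n : ℕ) : ∃ δ : ℝ, 0 < δ ∧ ∀ ε : ℝ, 0 < ε → ∃ C : ℝ,
    ∀ (K : Type) [Field K] [NumberField K] (T : ℝ), finrank ℚ K = n → (∀ x : K, x ^ 2 ≠ -3) →
      0 < T → (∀ E : IntermediateField ℚ K, ¬ FineK E → T ≤ |(discr E : ℝ)|) →
      (t3 K : ℝ) ≤ C * |(discr K : ℝ)| ^ (1 / 2 + ε) * T ^ (-δ) := by
  obtain ⟨δ, hδ, hmain⟩ := main_lat n
  refine ⟨δ / 2, by positivity, fun ε hε => ?_⟩
  obtain ⟨C, hC⟩ := hmain ε hε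
  obtain ⟨C', hC'⟩ := hR n
  refine ⟨Real.sqrt (|C'| * (|C| * ((12 : ℝ) ^ n) ^ (1 / 2 + ε) * 12)), ?_⟩
  intro K _ _ T hn hK hT hbad
  obtain ⟨K', _, _, _, s, hK2, hs, htop⟩ := exists_adjoin K hK
  obtain ⟨L, _, _, _, φ, hcore⟩ := exists_closure K'
  let ι : K →ₐ[ℚ] K' := (algebraMap K K').toRatAlgHom
  have hι : ∀ x, ι x = algebraMap K K' x := fun x => rfl
  have hsup := fieldRange_eq_sup s htop φ ι hι
  set M : IntermediateField ℚ L := (φ.comp ι).fieldRange with hM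
  let eM : K ≃ₐ[ℚ] M := AlgEquiv.ofInjectiveField (φ.comp ι)
  let eM' : K' ≃ₐ[ℚ] φ.fieldRange := AlgEquiv.ofInjectiveField φ
  have hsL : (φ s) ^ 2 = -3 := by rw [← map_pow, hs, map_neg, map_ofNat]
  have hsM : φ s ∉ M := by
    rintro ⟨x, hx⟩
    apply hK x
    have h1 : (φ.comp ι) x = φ s := hx
    have h2 : (φ.comp ι) (x ^ 2) = (φ.comp ι) (-3) := by
      rw [map_pow, h1, hsL, map_neg, map_ofNat]
    exact (φ.comp ι).injective h2
  have hfinM : finrank ℚ M = n := by rw [← hn]; exact (eM.toLinearEquiv.finrank_eq).symm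
  have hfinM' : finrank ℚ φ.fieldRange = 2 * n := by
    rw [← hn, mul_comm, ← hK2, finrank_mul_finrank ℚ K K']
    exact (eM'.toLinearEquiv.finrank_eq).symm
  have h1 := hC L M (φ s) T hsL hsM (by rw [hsup]; exact hcore) (by rw [hsup]; exact hfinM')
    hfinM hT (by
      intro E hE hf
      -- transport `E` to `K`
      let E' : IntermediateField ℚ K := E.comap (φ.comp ι)
      have hmap : E'.map (φ.comp ι) = E := by
        ext y
        constructor
        · rintro ⟨x, hx, rfl⟩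
          exact hx
        · intro hy
          obtain ⟨x, rfl⟩ := hE hy
          exact ⟨x, hy, rfl⟩
      let e : E' ≃ₐ[ℚ] E := (IntermediateField.equivMap E' (φ.comp ι)).trans
        (IntermediateField.equivOfEq hmap)
      rw [← absDiscr_eq_of_equiv e]
      apply hbad E'
      intro hE'
      apply hf
      rw [← hmap]
      exact fine_of_fineK (φ.comp ι) E' hE')
  rw [hsup] at h1
  have h2 : (Nat.card {x : ClassGroup (𝓞 φ.fieldRange) // x ^ 3 = 1} : ℝ) = t3 K' := by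
    rw [t3_eq_of_equiv eM']
    rfl
  rw [h2, ← absDiscr_eq_of_equiv eM'] at h1
  have h3 := hC' K K' s hn hK2 hs htop
  have h4 := discr_adjoin_le hs hK2 htop
  rw [hn] at h4
  have h5 := discr_sqrt_le hsL
  have hTp : 0 < T ^ (-δ) := Real.rpow_pos_of_pos hT _
  have hDK : 0 ≤ |(discr K : ℝ)| := abs_nonneg _
  have hmono : |(discr K' : ℝ)| ^ (1 / 2 + ε) ≤
      ((12 : ℝ) ^ n) ^ (1 / 2 + ε) * (|(discr K : ℝ)| ^ 2) ^ (1 / 2 + ε) := by
    rw [← Real.mul_rpow (by positivity) (by positivity)]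
    exact Real.rpow_le_rpow (abs_nonneg _) h4 (by positivity)
  have hpow : (|(discr K : ℝ)| ^ 2) ^ (1 / 2 + ε) = (|(discr K : ℝ)| ^ (1 / 2 + ε)) ^ 2 := by
    rw [← Real.rpow_natCast, ← Real.rpow_natCast, ← Real.rpow_mul hDK, ← Real.rpow_mul hDK,
      mul_comm]
  have hTpow : T ^ (-δ) = (T ^ (-(δ / 2))) ^ 2 := by
    rw [← Real.rpow_natCast, ← Real.rpow_mul hT.le]
    congr 1
    push_cast
    ring
  have h6 : (t3 K' : ℝ) ≤ (|C| * ((12 : ℝ) ^ n) ^ (1 / 2 + ε) * 12) *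
      ((|(discr K : ℝ)| ^ (1 / 2 + ε)) ^ 2 * (T ^ (-(δ / 2))) ^ 2) := by
    calc (t3 K' : ℝ) ≤ C * |(discr K' : ℝ)| ^ (1 / 2 + ε) * |(discr ℚ⟮φ s⟯ : ℝ)| * T ^ (-δ) := h1
      _ ≤ |C| * (((12 : ℝ) ^ n) ^ (1 / 2 + ε) * (|(discr K : ℝ)| ^ 2) ^ (1 / 2 + ε)) * 12 *
          T ^ (-δ) := by
        apply mul_le_mul_of_nonneg_right _ hTp.le
        apply mul_le_mul _ h5 (abs_nonneg _) (by positivity)
        exact mul_le_mul (le_abs_self C) hmono (by positivity) (abs_nonneg _)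
      _ = _ := by rw [hpow, hTpow]; ring
  have h7 : (t3 K : ℝ) ^ 2 ≤ (|C'| * (|C| * ((12 : ℝ) ^ n) ^ (1 / 2 + ε) * 12)) *
      ((|(discr K : ℝ)| ^ (1 / 2 + ε)) * (T ^ (-(δ / 2)))) ^ 2 := by
    calc (t3 K : ℝ) ^ 2 ≤ C' * t3 K' := h3
      _ ≤ |C'| * t3 K' := mul_le_mul_of_nonneg_right (le_abs_self C') (Nat.cast_nonneg _)
      _ ≤ |C'| * ((|C| * ((12 : ℝ) ^ n) ^ (1 / 2 + ε) * 12) *
          ((|(discr K : ℝ)| ^ (1 / 2 + ε)) ^ 2 * (T ^ (-(δ / 2))) ^ 2)) :=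
        mul_le_mul_of_nonneg_left h6 (abs_nonneg _)
      _ = _ := by ring
  have h8 : (t3 K : ℝ) ≤ Real.sqrt ((|C'| * (|C| * ((12 : ℝ) ^ n) ^ (1 / 2 + ε) * 12)) *
      ((|(discr K : ℝ)| ^ (1 / 2 + ε)) * (T ^ (-(δ / 2)))) ^ 2) := Real.le_sqrt_of_sq_le h7
  rw [Real.sqrt_mul (by positivity), Real.sqrt_sq (by positivity)] at h8
  linarith

theorem three_mem (n : ℕ) : ∃ δ : ℝ, 0 < δ ∧ ∀ ε : ℝ, 0 < ε → ∃ C : ℝ,
    ∀ (K : Type) [Field K] [NumberField K] (s : K) (T : ℝ), finrank ℚ K = n → s ^ 2 = -3 →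
      0 < T → (∀ E : IntermediateField ℚ K, s ∈ E → n ≠ 3 * finrank ℚ E → T ≤ |(discr E : ℝ)|) →
      (t3 K : ℝ) ≤ C * |(discr K : ℝ)| ^ (1 / 2 + ε) * T ^ (-δ) := by
  obtain ⟨δ, hδ, hmain⟩ := main_lat_mem n
  refine ⟨δ, hδ, fun ε hε => ?_⟩
  obtain ⟨C, hC⟩ := hmain ε hε
  refine ⟨|C| * 12, ?_⟩
  intro K _ _ s T hn hs hT hbad
  obtain ⟨L, _, _, _, φ, hcore⟩ := exists_closure K
  set M : IntermediateField ℚ L := φ.fieldRange with hM
  let eM : K ≃ₐ[ℚ] M := AlgEquiv.ofInjectiveField φ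
  have hsL : (φ s) ^ 2 = -3 := by rw [← map_pow, hs, map_neg, map_ofNat]
  have hfinM : finrank ℚ M = n := by rw [← hn]; exact (eM.toLinearEquiv.finrank_eq).symm
  have h1 := hC L M (φ s) T hsL ⟨s, rfl⟩ hcore hfinM hT (by
      intro E hE hsE hf
      let E' : IntermediateField ℚ K := E.comap φ
      have hmap : E'.map φ = E := by
        ext y
        constructor
        · rintro ⟨x, hx, rfl⟩
          exact hx
        · intro hy
          obtain ⟨x, rfl⟩ := hE hy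
          exact ⟨x, hy, rfl⟩
      let e : E' ≃ₐ[ℚ] E := (IntermediateField.equivMap E' φ).trans
        (IntermediateField.equivOfEq hmap)
      rw [← absDiscr_eq_of_equiv e]
      apply hbad E' hsE
      rwa [e.toLinearEquiv.finrank_eq])
  have h2 : (Nat.card {x : ClassGroup (𝓞 M) // x ^ 3 = 1} : ℝ) = t3 K := by
    rw [t3_eq_of_equiv eM]
    rfl
  rw [h2, ← absDiscr_eq_of_equiv eM] at h1
  have h5 := discr_sqrt_le hsL
  have hTp : 0 < T ^ (-δ) := Real.rpow_pos_of_pos hT _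
  calc (t3 K : ℝ) ≤ C * |(discr K : ℝ)| ^ (1 / 2 + ε) * |(discr ℚ⟮φ s⟯ : ℝ)| * T ^ (-δ) := h1
    _ ≤ |C| * |(discr K : ℝ)| ^ (1 / 2 + ε) * 12 * T ^ (-δ) := by
      apply mul_le_mul_of_nonneg_right _ hTp.le
      apply mul_le_mul _ h5 (abs_nonneg _) (by positivity)
      exact mul_le_mul_of_nonneg_right (le_abs_self C) (by positivity)
    _ = _ := by ring

end Pool.Agent.Lib.MP_695920_nt.Sx
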