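import Mathlib
import Pool.Agent.Lib.MP_695920_nt.Sx.Final

/-!
3-torsion of the class groups of all sextic fields, modulo the reflection inequality.
-/

set_option autoImplicit false

open NumberField Module
open scoped IntermediateField

namespace Pool.Agent.Lib.MP_695920_nt.Sx

open Pool.Agent.Lib.MP_695920_nt.Tow

lemma finrank_dvd_of (K : Type) [Field K] [NumberField K] (E : IntermediateField ℚ K) :
    finrank ℚ E ∣ finrank ℚ K := ⟨finrank E K, (finrank_mul_finrank ℚ E K).symm⟩

lemma absDiscr_of_finrank_eq (K : Type) [Field K] [NumberField K] (E : IntermediateField ℚ K)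
    (h : finrank ℚ E = finrank ℚ K) : |(discr E : ℝ)| = |(discr K : ℝ)| := by
  have h1 : E = ⊤ := by
    apply IntermediateField.eq_of_le_of_finrank_eq le_top
    rw [h, IntermediateField.finrank_top']
  subst h1
  exact absDiscr_eq_of_equiv IntermediateField.topEquiv

lemma dvd_six {e : ℕ} (h : e ∣ 6) : e = 1 ∨ e = 2 ∨ e = 3 ∨ e = 6 := by
  have h1 : e ∈ Nat.divisors 6 := by simp [h]
  have h2 : Nat.divisors 6 = {1, 2, 3, 6} := by decide
  rw [h2] at h1
  simpa using h1

theorem sextic (hR : Reflection) : ∃ Δ : ℝ, Δ < 1 / 2 ∧ ∃ C : ℝ,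
    ∀ (K : Type) [Field K] [NumberField K], finrank ℚ K = 6 →
      (t3 K : ℝ) ≤ C * |(discr K : ℝ)| ^ Δ := by
  obtain ⟨δ1, hδ1, h1⟩ := three_even hR 6
  obtain ⟨δ2, hδ2, h2⟩ := three_mem 6
  obtain ⟨C1, hC1⟩ := h1 (δ1 / 2) (by positivity)
  obtain ⟨C2, hC2⟩ := h2 (δ2 / 2) (by positivity)
  set δ := min δ1 δ2 with hδ
  have hδ0 : 0 < δ := lt_min hδ1 hδ2
  refine ⟨1 / 2 - δ / 2, by linarith, |C1| + |C2|, ?_⟩
  intro K _ _ hK
  have hD1 : 1 ≤ |(discr K : ℝ)| := Pool.Agent.Lib.MP_695920_nt.Solv.one_le_absdiscr K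
  have hD0 : 0 < |(discr K : ℝ)| := by linarith
  have key : ∀ (C δ' : ℝ), δ ≤ δ' →
      C * |(discr K : ℝ)| ^ (1 / 2 + δ' / 2) * |(discr K : ℝ)| ^ (-δ') ≤
        |C| * |(discr K : ℝ)| ^ (1 / 2 - δ / 2) := by
    intro C δ' hle
    rw [mul_assoc, ← Real.rpow_add hD0]
    apply mul_le_mul (le_abs_self C) _ (by positivity) (abs_nonneg _)
    apply Real.rpow_le_rpow_of_exponent_le hD1
    linarith
  by_cases hs : ∃ s : K, s ^ 2 = -3
  · obtain ⟨s, hs⟩ := hs
    have h3 := hC2 K s |(discr K : ℝ)| hK hs hD0 (by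
      intro E hsE hne
      apply le_of_eq
      symm
      apply absDiscr_of_finrank_eq
      have h4 : finrank ℚ E ∣ 6 := hK ▸ finrank_dvd_of K E
      have h5 : 2 ∣ finrank ℚ E := by
        obtain ⟨b, hb⟩ := finrank_dvd (X := ℚ⟮s⟯) (Y := E) (by
          rw [IntermediateField.adjoin_simple_le_iff]
          exact hsE)
        rw [hb, finrank_sqrt hs]
        exact Dvd.intro _ rfl
      rcases dvd_six h4 with h | h | h | h <;> omega)
    calc (t3 K : ℝ) ≤ _ := h3
      _ ≤ |C2| * |(discr K : ℝ)| ^ (1 / 2 - δ / 2) := key C2 δ2 (min_le_right _ _)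
      _ ≤ (|C1| + |C2|) * |(discr K : ℝ)| ^ (1 / 2 - δ / 2) := by
        apply mul_le_mul_of_nonneg_right _ (by positivity)
        linarith [abs_nonneg C1]
  · push Not at hs
    have h3 := hC1 K |(discr K : ℝ)| hK hs hD0 (by
      intro E hne
      apply le_of_eq
      symm
      apply absDiscr_of_finrank_eq
      have h4 : finrank ℚ E ∣ 6 := hK ▸ finrank_dvd_of K E
      have hodd : Odd (finrank ℚ E) → FineK E := by
        intro ho
        right
        refine ⟨⊤, ?_, ?_⟩
        · rw [IntermediateField.finrank_top', hK]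
          decide
        · rw [top_inf_eq]
          exact ho
      rcases dvd_six h4 with h | h | h | h
      · exfalso
        apply hne
        apply hodd
        rw [h]
        decide
      · exfalso
        apply hne
        left
        have h5 := finrank_mul_finrank ℚ E K
        rw [h, hK] at h5
        omega
      · exfalso
        apply hne
        apply hodd
        rw [h]
        decide
      · rw [h, hK])
    calc (t3 K : ℝ) ≤ _ := h3
      _ ≤ |C1| * |(discr K : ℝ)| ^ (1 / 2 - δ / 2) := key C1 δ1 (min_le_left _ _)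
      _ ≤ (|C1| + |C2|) * |(discr K : ℝ)| ^ (1 / 2 - δ / 2) := by
        apply mul_le_mul_of_nonneg_right _ (by positivity)
        linarith [abs_nonneg C2]

end Pool.Agent.Lib.MP_695920_nt.Sx
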