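import Mathlib
import Pool.Agent.Lib.MP_695920_nt.Refl.Reflect
import Pool.Agent.Lib.MP_695920_nt.Sx.Sextic

/-!
The reflection inequality in the form used here.
-/

set_option autoImplicit false

open NumberField Module
open scoped IntermediateField

namespace Pool.Agent.Lib.MP_695920_nt.Sx

theorem reflection_holds : Reflection := by
  intro n
  refine ⟨9 ^ n, ?_⟩
  intro K K' _ _ _ _ _ s hn h2 hs htop
  -- the cube root of unity
  have hw : ((-1 + s) / 2) ^ 2 + (-1 + s) / 2 + 1 = 0 := by
    have h1 : ((-1 + s) / 2) ^ 2 + (-1 + s) / 2 + 1 = (s ^ 2 + 3) / 4 := by ring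
    rw [h1, hs]
    norm_num
  have hint : IsIntegral ℤ ((-1 + s) / 2) := by
    refine ⟨Polynomial.X ^ 2 + Polynomial.X + 1, ?_, ?_⟩
    · monicity!
    · simpa using hw
  let ω : 𝓞 K' := ⟨(-1 + s) / 2, hint⟩
  have hω : ω ^ 2 + ω + 1 = 0 := RingOfIntegers.ext hw
  have hK : ∀ z : K, z ^ 2 + z + 1 ≠ 0 := by
    intro z hz
    have h1 : (2 * z + 1) ^ 2 = -3 := by linear_combination 4 * hz
    -- then `s` is in the image of `K`
    have h3 : (s - algebraMap K K' (2 * z + 1)) * (s + algebraMap K K' (2 * z + 1)) = 0 := by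
      have h4 : (algebraMap K K' (2 * z + 1)) ^ 2 = -3 := by
        rw [← map_pow, h1, map_neg, map_ofNat]
      linear_combination hs - h4
    have h5 : s ∈ (⊥ : IntermediateField K K') := by
      rw [IntermediateField.mem_bot]
      rcases mul_eq_zero.mp h3 with h | h
      · exact ⟨2 * z + 1, by linear_combination -h⟩
      · exact ⟨-(2 * z + 1), by rw [map_neg]; linear_combination -h⟩
    have h6 : (⊤ : IntermediateField K K') ≤ ⊥ := by
      rw [← htop, IntermediateField.adjoin_simple_le_iff]
      exact h5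
    have h7 : (⊥ : IntermediateField K K') = ⊤ := le_antisymm bot_le h6
    have h8 : finrank K (⊤ : IntermediateField K K') = 1 := by
      rw [← h7]
      exact IntermediateField.finrank_bot
    rw [IntermediateField.finrank_top', h2] at h8
    omega
  have h := Pool.Agent.Lib.MP_695920_nt.Refl.reflection (K := K) (K' := K') h2 hω hK
  rw [hn] at h
  unfold t3
  exact_mod_cast h

end Pool.Agent.Lib.MP_695920_nt.Sx
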